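import Pool.Agent.Y403.SI.Quasi

/-!
# Isomorphism, embeddability and everything between for abelian closed subgroups of `S_∞`

Let `C` be a class of closed subgroups of `S_∞` which contains the abelian topologically torsion
ones, and let `R` be a relation on `C` such that `R G H` implies that there is a continuous
injective homomorphism from `G` to `H`.

* If topologically isomorphic groups are related, then every analytic equivalence relation is
  Borel reducible to `R`, and `R` is not Borel reducible to graph isomorphism.
* If `R G H` holds whenever `G` is topologically isomorphic to a closed subgroup of `H`, then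
  every analytic quasi-order is Borel reducible to `R`.
-/

set_option autoImplicit false

namespace Pool.Agent.Results.MP_52b1ec_lc.BetweenIsoAndInjection

open Pool.Agent.Helper732.SInf Pool.Agent.Y403.SI

universe u

theorem result (C : Set ClosedSub) (hC : ∀ G, IsAbelian G → IsTopTorsion G → G ∈ C)
    (R : {G : ClosedSub // G ∈ C} → {G : ClosedSub // G ∈ C} → Prop)
    (hR : ∀ G H, R G H → ContInj G.1 H.1) :
    ((∀ G H, TopIso G.1 H.1 → R G H) →
      AnalyticHard.{u} R ∧ ¬ BorelReducible R GraphIso) ∧
    ((∀ G H, ClosedEmb G.1 H.1 → R G H) → QuasiOrderHard.{u} R) :=
  ⟨fun h => ⟨analyticHard_of_between C hC R h hR,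
    not_reducible_of_hard (analyticHard_of_between.{0} C hC R h hR)⟩,
   fun h => quasiOrderHard_of_between C hC R h hR⟩

end Pool.Agent.Results.MP_52b1ec_lc.BetweenIsoAndInjection
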